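import Pool.Agent.KS6_4.CL.FinF

/-!
# The `C^r` closing lemma for centre bunched extensions of hyperbolic sets

`V n = ℝⁿ`, `DiffM n N r = Diff^r(N)` with the strong (Whitney) `C^r` topology `strongTop n N r` (the
usual one, `N` being compact), `IsPer G z`: `z` is periodic for `G` (`Pool/Agent/H718R2/G0.lean`),
`Per f`: the set of the periodic points of `f` (`Pool/Agent/TH80/OMS/SymDefs.lean`).
`Approx n N r F Q`: every neighbourhood of `F` in `Diff^r(N)` contains some `G` with the property `Q`
(`Pool/Agent/N813/CL/DefsF.lean`). `BaireSet n N r S`: `S` contains a countable intersection of open dense
subsets of `Diff^r(N)` (`Pool/Agent/Y504/CO/KSG.lean`).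

From `Pool/Agent/KS6_4/CL/Defs.lean` and `Pool/Agent/KS6_4/CL/Bun.lean`:
* `Expansive h`, `Shadowing h`, `TopTrans h`: `h` is expansive, has the shadowing property (two-sided
  pseudo-orbits), is topologically transitive. Every infinite hyperbolic basic set (for instance a
  transitive Anosov diffeomorphism, a horseshoe, a solenoid, a subshift of finite type) is an example.
* `Holonomy F h Λ π ε C H`: for `x ∈ Λ` and `b` in the local stable set of size `ε` of `π x`, `H x b` is
  a point of the fibre of `Λ` over `b`; these stable holonomies between the fibres commute with the
  dynamics, are continuous, and `C`-Lipschitz on the fibres. (Unstable holonomies: the same for the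
  inverses of `F` and `h`.)
* `Bunched F h Λ π`: `Λ` is a closed invariant set of `F`, `π : Λ → B` is continuous and onto,
  `π F = h π`, where `h` is an infinite transitive expansive homeomorphism with the shadowing property,
  there are such stable and unstable holonomies, and over every periodic point of `h` the return map
  of the fibre is nonwandering. Nothing else is assumed of the fibres and of the fibre maps.

From `Pool/Agent/KS6_4/CL/DefsF.lean`:
* `FPt n N F z`: either (a) the distance of `N` is compatible with the smooth structure (`ChartLip`,
  for instance a Riemannian distance; `Pool/Agent/Y368/CL/Met.lean`) and `z ∈ Λ` for some `h, Λ, π` with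
  `Bunched F h Λ π` (`BPt`), or (b) (`GPt`) `z` lies in a closed invariant set `K` on which `F` is an
  extension, by the action of a compact connected group (`ExpAct`, `Inv`, `Quot` in
  `Pool/Agent/N813/CL/DefsF.lean`: the group is given by the maps `R_X = exp(X)`, `X ∈ ℝ^k`), of a
  bi-Lipschitz homeomorphism `g` of a finite dimensional compact metric space `X = π(K)` with
  `BPt g (π z)`, where `π` and its inverse modulo the group are Hölder continuous near `z`.
* `FLim n N r F z`: arbitrarily `C^r`-close to `F` there are `F'` (for example `F' = F`) for which `z` is
  a limit of points `y` with `FPt n N F' y` (for example `y = z`).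

Examples for (a), `z` arbitrary in `Λ`: partially hyperbolic skew products `(b, y) ↦ (h b, g_b y)` over
a transitive Anosov diffeomorphism or over a basic set, and partially hyperbolic diffeomorphisms the
centre leaves of which are the fibres of a fibration, if they are centre bunched (then the
holonomies between the centre leaves are Lipschitz) and the fibre maps preserve the volume, or other
measures of full support, of the fibres. The dimension of the fibres is arbitrary, no accessibility,
ergodicity or nonuniform hyperbolicity is assumed, and nothing is assumed outside of `Λ`. For constant
`g_b` (direct products) and for locally constant `g_b` (random products of finitely many volume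
preserving diffeomorphisms over a shift) the holonomies are trivial, no bunching is needed.

The proof: let `z'` be in the fibre over a homoclinic point `b` of a horseshoe near `π z`. The orbit
closures in the subsystem which avoids one long word of the code of `b` are saturated by the
holonomies, by the recurrence in the periodic fibres. The homoclinic holonomies `H_w`, `w` a word,
from the fibre of `b` to itself are uniformly Lipschitz; by the pigeonhole principle two of the `2^(tL)`
holonomies of words of length `tL` have almost the same value at `z'`, so a loop of holonomies
through two different words moves `z'` by less than `ρ^k`, where `ρ = e^(-c t)`, and it is realised by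
an orbit which avoids the `ρ`-neighbourhood of its starting point before its return.
-/

set_option autoImplicit false

open scoped Manifold ContDiff Topology

universe u v

namespace Pool.Agent.Results.MP_1e8d1a_an.BunchedExtensions

open Pool.Agent.H718R2.G Pool.Agent.N813.CL.F Pool.Agent.KS6_4.CL Pool.Agent.TH80.OMS
  Pool.Agent.Y504.CO.KSG

/-- Let `N` be a closed manifold and `1 ≤ r ≤ ∞`. (Q1) Let `F ∈ Diff^r(N)` and `z ∈ N`, and suppose
that arbitrarily `C^r`-close to `F` there are diffeomorphisms `F'` (for example `F' = F`) such that `z`
is a limit of points `y` (for example `y = z`) of compact `F'`-invariant sets on which `F'` is an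
extension, with Lipschitz stable and unstable holonomies and nonwandering periodic fibres, of an
infinite transitive expansive homeomorphism with the shadowing property, or a compact connected group
extension of such an extension (`FPt`). Then the conclusion of the `C^r` closing lemma holds for `F` at
`z`. (Q2) For all `f` in a Baire set of `Diff^r(N)`, every such point `z` is a limit of periodic points
of `f`. -/
theorem result {n : ℕ} {N : Type u} [MetricSpace N] [CompactSpace N] [ChartedSpace (V n) N]
    [IsManifold (𝓡 n) ∞ N] (r : ℕ∞) (hr : 1 ≤ r) :
    (∀ (F : DiffM n N r) (z : N), FLim.{u, v} n N r F z → Approx n N r F fun G => IsPer G z) ∧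
    BaireSet n N r {f | ∀ z, FLim.{u, v} n N r f z → z ∈ closure (Per f)} :=
  ⟨main1 r hr, main2 r hr⟩

end Pool.Agent.Results.MP_1e8d1a_an.BunchedExtensions
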