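import Pool.Agent.KS6_36.LH.Main

/-!
# The `C^r` closing lemma for maps which preserve the leaves of a horocycle flow

`V n = ℝⁿ`, `DiffM n N r = Diff^r(N)`, `strongTop n N r` is its strong (Whitney) `C^r` topology (the
usual one, `N` being compact), `IsPer G z`: `z` is periodic (`H718R2/G0.lean`); `NonWand F y`: `y` is
nonwandering (`W564/SC/Defs.lean`); `SL2 = SL(2, ℝ)`; `EquivClosable n N r ρ F₀ y`: every neighbourhood
of `F₀` in `Diff^r(N)` contains some `G` which commutes with the action `ρ` and for which `y` is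
periodic (`TH382/QC/Defs.lean`); `IsSLAction n N univ ρ`: smooth action of `SL(2, ℝ)` on `N`;
`IsLatticePt ρ y`: the stabiliser `Γ` of `y` is discrete and cocompact, so that the orbit of `y` is the
compact space `SL(2, ℝ) / Γ` (`TH382/HS/Defs.lean`); `hor t` is the matrix with the rows `1, t` and
`0, 1`, so `t ↦ ρ (hor t)` is the horocycle flow (`KS6_36/LH/Exp.lean`).

For example `N = SL(2, ℝ) / Γ` and `F (x) = u_{τ(x)} x` with the horocycle flow `u`, for an arbitrary
`C^r` function `τ` for which this is a diffeomorphism (it preserves each orbit of `u`, but it is not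
homogeneous; for instance all time maps of all `C^r` time changes of the horocycle flow), or
`N = SL(2, ℝ) / Γ × M` and `F (x, b) = (u_{τ(x, b)} x, f b)` with `τ ≥ 0` and `f ∈ Diff^r(M)`.
-/

set_option autoImplicit false

open scoped Manifold ContDiff Topology

namespace Pool.Agent.Results.MP_1e8d1a_an.LeafHorocycle

open Pool.Agent.H718R2.G Pool.Agent.W564.SC Pool.Agent.TH382.QC Pool.Agent.TH382.HS
open Pool.Agent.KS6_36.LH

/-- For some smooth action `ρ` of `SL(2, ℝ)` on `N`, some `C^r` function `τ` on `N` and some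
`F₀ ∈ Diff^r(N)`,
* `F x = u_{τ(x)} (F₀ x)` for all `x`, where `u_t = ρ (hor t)` is the horocycle flow of `ρ`;
* the orbit of `y` is a compact space `SL(2, ℝ) / Γ`, with `Γ` discrete;
* either `F₀` is the identity and `y` is nonwandering for `F`, or `τ` does not change its sign and `F₀`
can be closed at `y` by maps which commute with `ρ`. -/
def IsHorPt (n : ℕ) (N : Type*) [TopologicalSpace N] [ChartedSpace (V n) N] (r : ℕ∞)
    (F : DiffM n N r) (y : N) : Prop :=
  ∃ (ρ : SL2 → N → N) (τ : N → ℝ) (F₀ : DiffM n N r), IsSLAction n N Set.univ ρ ∧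
    ContMDiff (𝓡 n) 𝓘(ℝ, ℝ) r τ ∧ (∀ x, F x = ρ (hor (τ x)) (F₀ x)) ∧ IsLatticePt ρ y ∧
    (((∀ x, F₀ x = x) ∧ NonWand F y) ∨
      (((∀ x, 0 ≤ τ x) ∨ ∀ x, τ x ≤ 0) ∧ EquivClosable n N r ρ F₀ y))

/-- Let `N` be a closed manifold, `1 ≤ r ≤ ∞`, `F ∈ Diff^r(N)` and `z ∈ N`. Suppose that arbitrarily
`C^r`-close to `F` there are diffeomorphisms `F'` (for example `F' = F`) for which `z` is a limit of
points `y` as in `IsHorPt` (for example such a point). Then the conclusion of the `C^r` closing lemma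
holds for `F` at `z`. -/
theorem result {n : ℕ} {N : Type*} [TopologicalSpace N] [T2Space N] [CompactSpace N]
    [ChartedSpace (V n) N] [IsManifold (𝓡 n) ∞ N] (r : ℕ∞) (hr : 1 ≤ r) (F : DiffM n N r) (z : N)
    (h : ∀ U : Set (DiffM n N r), IsOpen[strongTop n N r] U → F ∈ U →
      ∃ F' ∈ U, z ∈ closure {y | IsHorPt n N r F' y}) :
    ∀ U : Set (DiffM n N r), IsOpen[strongTop n N r] U → F ∈ U → ∃ G ∈ U, IsPer G z := by
  apply closable_of_limit
  intro U hU hFU
  obtain ⟨F', hF', hz⟩ := h U hU hFU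
  refine ⟨F', hF', closure_mono (fun y hy => ?_) hz⟩
  obtain ⟨ρ, τ, F₀, hρ, hτ, hF, hlat, h1 | h1⟩ := hy
  · exact main2 hr hρ hτ F' (fun x => by rw [hF, h1.1]) hlat h1.2
  · exact main1 hr hρ hτ h1.1 F₀ F' hF hlat h1.2

/-- Special case: maps which preserve each leaf of the horocycle flow, at all nonwandering points with a
compact `SL(2, ℝ)`-orbit. -/
theorem leafwise {n : ℕ} {N : Type*} [TopologicalSpace N] [T2Space N] [CompactSpace N]
    [ChartedSpace (V n) N] [IsManifold (𝓡 n) ∞ N] (r : ℕ∞) (hr : 1 ≤ r) (ρ : SL2 → N → N)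
    (hρ : IsSLAction n N Set.univ ρ) (τ : N → ℝ) (hτ : ContMDiff (𝓡 n) 𝓘(ℝ, ℝ) r τ)
    (F : DiffM n N r) (hF : ∀ y, F y = ρ (hor (τ y)) y) (z : N)
    (hz : z ∈ closure {y | IsLatticePt ρ y ∧ NonWand F y}) : ClosableAt n N r F z :=
  main4 hr hρ hτ F hF hz

end Pool.Agent.Results.MP_1e8d1a_an.LeafHorocycle
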