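import Pool.Agent.KS6_36.LT.Final

/-!
# The `C^r` closing lemma for maps which move points along irrational directions of torus orbits

`V n = ℝⁿ`, `DiffM n N r = Diff^r(N)`, `strongTop n N r` is its strong (Whitney) `C^r` topology (the
usual one, `N` being compact), `IsPer G z`: `z` is periodic (`H718R2/G0.lean`); `LAct d n N O A`: smooth
action of `ℝ^d` on the open set `O` (`TH80/CLX/LFam.lean`); `LeafData`: `KS6_36/LT/Defs.lean`;
`ClosesWith`: closing property with shadowing (`KS6_36/LT/Base.lean`); `RootOn`, `ExtAt`: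
`KS6_36/LT/Final.lean`.

Examples:
* Let `X` be a Killing field of a closed Riemannian manifold `N`, `φ` its flow, `Φ` an isometry commuting
  with `φ`, and `F = φ_τ ∘ Φ` with an ARBITRARY function `τ` on `N` (no smallness, no Diophantine
  condition). The closure of the group generated by `Φ` and `φ` is a torus times a finite group, so the
  closing lemma holds for `F` at all nonwandering points (`isometric_flows`); already for linear flows of
  tori, `F(x) = x + β + τ(x) ω` on `𝕋^d`. Such maps may have attracting invariant hypersurfaces on which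
  they are conjugate to irrational translations, so that it is not possible to close the orbits by moving
  the points along the leaves only.
* Skew products `F(b, x) = (h b, x + β(b) + τ(b, x) ω)` on `M × 𝕋^d` over Anosov diffeomorphisms `h`,
  without any domination.
* Products of such maps, in particular `(x_j) ↦ (x_j + β_j + τ_j(x_j) ω_j)` on `𝕋^{d_1} × ... × 𝕋^{d_k}`.
-/

set_option autoImplicit false

open scoped Manifold ContDiff Topology

namespace Pool.Agent.Results.MP_1e8d1a_an.LeafwiseToral

open Pool.Agent.H718R2.G Pool.Agent.W564.SC Pool.Agent.TH382.QC Pool.Agent.TH382.HS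
open Pool.Agent.TH80.CLX Pool.Agent.KS6_36.LT

/-- `y` lies in a compact set `K` on which a torus `𝕋^d = ℝ^d / ℤ^d` acts by `A`, the sets `F^i(K)`,
`0 < i < m`, do not meet `K`, and on `K` the return map is
`F^m(w) = A(τ_1(w) ω_1 + ... + τ_k(w) ω_k) f₀(w)`, with arbitrary directions `ω_j ∈ ℝ^d` and arbitrary
continuous functions `τ_j` (constant in the direction of `ω_i` for `i ≠ j`; no condition if `k = 1`), where
`f₀ : K → K` commutes with the action (`LeafData`). The point `y` is nonwandering for `F^m` on `K`, and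
`f₀` is isometric in the sense that a power of it is a translation on each torus orbit (`RootOn`), or it is
a toral extension of a map with the closing property with shadowing (`ExtAt`). -/
def IsLeafPt (n : ℕ) (N : Type*) [TopologicalSpace N] [ChartedSpace (V n) N] (F : N → N)
    (y : N) : Prop :=
  ∃ (d k m : ℕ) (O K : Set N) (A : V d → N → N) (om : Fin k → V d) (τ : Fin k → N → ℝ)
    (f₀ : N → N), LeafData n N d k m F O K A om τ f₀ ∧ y ∈ K ∧
    (∀ W ∈ 𝓝 y, ∃ q : ℕ, 1 ≤ q ∧ ∃ w ∈ W, w ∈ K ∧ F^[m * q] w ∈ W) ∧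
    (RootOn A K f₀ ∨ ExtAt A K f₀ y)

/-- Let `N` be a closed manifold, `0 ≤ r ≤ ∞`, `F ∈ Diff^r(N)` and `z ∈ N`. Suppose that arbitrarily
`C^r`-close to `F` there are diffeomorphisms `F'` (for example `F' = F`) for which `z` is a limit of
points `y` as in `IsLeafPt` (for example such a point). Then the conclusion of the `C^r` closing lemma
holds for `F` at `z`. -/
theorem result {n : ℕ} {N : Type*} [TopologicalSpace N] [T2Space N] [CompactSpace N]
    [ChartedSpace (V n) N] [IsManifold (𝓡 n) ∞ N] (r : ℕ∞) (F : DiffM n N r) (z : N)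
    (h : ∀ U : Set (DiffM n N r), IsOpen[strongTop n N r] U → F ∈ U →
      ∃ F' ∈ U, z ∈ closure {y | IsLeafPt n N F' y}) :
    ∀ U : Set (DiffM n N r), IsOpen[strongTop n N r] U → F ∈ U → ∃ G ∈ U, IsPer G z := by
  apply closable_of_limit
  intro U hU hFU
  obtain ⟨F', hF', hz⟩ := h U hU hFU
  refine ⟨F', hF', closure_mono (fun y hy => ?_) hz⟩
  obtain ⟨d, k, m, O, K, A, om, τ, f₀, h1, h2, h3, h4⟩ := hy
  exact close_final F' h1 h2 h3 h4

/-- Special case (global): a torus acts on `N` by `R`, `f₀` is a homeomorphism commuting with it, a power of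
which belongs to the torus, and `F(w) = R(∑ τ_j(w) ω_j) f₀(w)`; all nonwandering points. -/
theorem isometric_flows {n d k : ℕ} {N : Type*} [TopologicalSpace N] [T2Space N] [CompactSpace N]
    [ChartedSpace (V n) N] [IsManifold (𝓡 n) ∞ N] (r : ℕ∞) {R : V d → N → N}
    (hR : IsTorusAct d n N R) (om : Fin k → V d)
    (τ : Fin k → N → ℝ) (hτ : ∀ j, Continuous (τ j))
    (hdir : ∀ i j, i ≠ j → ∀ (t : ℝ) (w : N), τ j (R (t • om i) w) = τ j w) (f₀ : N → N)
    (hf₀ : Continuous f₀) (hcomm : ∀ a w, f₀ (R a w) = R a (f₀ w)) (l : ℕ) (hl : 1 ≤ l)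
    (β : V d) (hroot : ∀ w, f₀^[l] w = R β w) (F : DiffM n N r)
    (hF : ∀ w, F w = R (∑ j, τ j w • om j) (f₀ w)) (z : N) (hz : NonWand F z) :
    ClosableAt n N r F z :=
  close_torus hR om τ hτ hdir f₀ hf₀ hcomm l hl (fun _ => β) continuous_const (fun _ _ => rfl) hroot F
    hF z hz

end Pool.Agent.Results.MP_1e8d1a_an.LeafwiseToral
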