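import Pool.Agent.KS6_4.HC.FinF

/-!
# The `C^r` closing lemma at strong homoclinic points and for fibred partially hyperbolic maps

`V n = ℝⁿ`, `DiffM n N r = Diff^r(N)` with the strong (Whitney) `C^r` topology `strongTop n N r` (the
usual one, `N` being compact), `IsPer G z`: `z` is periodic for `G` (`Pool/Agent/H718R2/G0.lean`),
`Per f`: the set of the periodic points of `f` (`Pool/Agent/TH80/OMS/SymDefs.lean`).
`Approx n N r F Q`: every neighbourhood of `F` in `Diff^r(N)` contains some `G` with the property `Q`
(`Pool/Agent/N813/CL/DefsF.lean`). `BaireSet n N r S`: `S` contains a countable intersection of open dense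
subsets of `Diff^r(N)` (`Pool/Agent/Y504/CO/KSG.lean`).

From `Pool/Agent/KS6_4/HC/Hom.lean`:
* `Plaques g D W`: sets `W x`, `x ∈ D`, which are contracted uniformly by the iterates of `g`, and
  depend lower semicontinuously on `x` (for example the local strong stable manifolds of a partially
  hyperbolic set);
* `Leads g K x y`: there are arbitrarily long orbit segments in `K` from near `x` to near `y`;
* `StrongHom g z`: `K` is a closed (forward) invariant set with stable plaques, `z` is not in `K`, a
  forward iterate of `z` is in the stable plaque of some `k₁ ∈ K`, a backward iterate of `z` is in the
  unstable plaque of some `k₂ ∈ K`, and `Leads g K k₁ k₂` (for example `g` is transitive on `K`, or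
  `k₁ = k₂` is a recurrent point). The unstable plaques are defined on `K` and on the positive orbits of
  the stable plaques of `K`.

From `Pool/Agent/KS6_4/CL/Defs.lean`, `Pool/Agent/KS6_4/CL/Bun.lean`, `Pool/Agent/KS6_4/HC/Fib.lean`:
* `Expansive h`, `Shadowing h`, `TopTrans h`: `h` is expansive, has the shadowing property (two-sided
  pseudo-orbits), is topologically transitive. Every hyperbolic basic set (for instance a transitive
  Anosov diffeomorphism, a horseshoe, a subshift of finite type) is an example;
* `Fibred F h Λ π`: `Λ` is a closed invariant set of `F`, `π : Λ → B` is continuous and onto,
  `π F = h π` where `h` is a transitive expansive homeomorphism of `B` with the shadowing property, and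
  there are continuous stable and unstable holonomies (`CHol`) between the fibres over the local stable
  and unstable sets of `h`, which commute with the dynamics;
* `FibPt g x`: `x ∈ Λ` for some `Fibred g h Λ π`, such that for ONE closed invariant set `B'` of `h`,
  `B' ≠ ∅, B`, the restriction of `g` to `Λ ∩ π⁻¹(B')` is topologically transitive (`TransOn`).

From `Pool/Agent/KS6_4/HC/DefsF.lean`: `HPt g x`: `StrongHom g x` or `FibPt g x`. `FHPt n N F z`: (a) `HPt F z`,
the distance of `N` being compatible with the smooth structure (`ChartLip`, for instance a Riemannian
distance; `Pool/Agent/Y368/CL/Met.lean`), or (b) (`GHPt`) `z` lies in a closed invariant set on which `F`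
is an extension, by the action of a compact connected group (given by the maps `R_X = exp(X)`,
`X ∈ ℝ^k`; `Pool/Agent/N813/CL/DefsF.lean`), of a homeomorphism `g` of a compact metric space with
`HPt g (π z)`, the projection `π` being Hölder continuous in both directions near `z`. `HLim n N r F z`:
arbitrarily `C^r`-close to `F` there are `F'` (for example `F' = F`) for which `z` is a limit of points
`y` with `FHPt n N F' y` (for example `y = z`).

Examples. (1) Partially hyperbolic skew products `F (b, y) = (h b, g_b y)` over a transitive Anosov
diffeomorphism `h` (or a basic set), with arbitrary fibres: if the return map of the fibre over ONE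
periodic point of `h` is topologically transitive, then `F` can be closed at EVERY point, whatever the
other fibre maps are (no centre bunching, nothing is preserved). The same if `F` is transitive over one
horseshoe `B' ≠ B`. (2) Partially hyperbolic diffeomorphisms, not fibred: all points which lie both in
the union of the strong stable manifolds and in the union of the strong unstable manifolds of the
points of a transitive compact invariant set `K` (for example the orbit closure of a recurrent point, or
a periodic centre leaf with minimal dynamics) can be closed.
-/

set_option autoImplicit false

open scoped Manifold ContDiff Topology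

universe u v

namespace Pool.Agent.Results.MP_1e8d1a_an.TransitiveSubsystems

open Pool.Agent.H718R2.G Pool.Agent.N813.CL.F Pool.Agent.KS6_4.HC Pool.Agent.TH80.OMS
  Pool.Agent.Y504.CO.KSG

/-- Let `N` be a closed manifold and `1 ≤ r ≤ ∞`. (Q1) Let `F ∈ Diff^r(N)` and `z ∈ N`, and suppose
that arbitrarily `C^r`-close to `F` there are diffeomorphisms `F'` (for example `F' = F`) such that `z`
is a limit of points `y` (for example `y = z`) which are strong homoclinic points, or lie in closed
sets fibred over a transitive expansive homeomorphism `h` of `B` with the shadowing property, with
continuous holonomies, the part over one closed `h`-invariant set `B' ≠ ∅, B` being transitive; or which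
have one of these properties in the quotient by a compact connected group (`FHPt`). Then the
conclusion of the `C^r` closing lemma holds for `F` at `z`. (Q2) For all `f` in a Baire set of
`Diff^r(N)`, every such point `z` is a limit of periodic points of `f`. -/
theorem result {n : ℕ} {N : Type u} [MetricSpace N] [CompactSpace N] [ChartedSpace (V n) N]
    [IsManifold (𝓡 n) ∞ N] (r : ℕ∞) (hr : 1 ≤ r) :
    (∀ (F : DiffM n N r) (z : N), HLim.{u, v} n N r F z → Approx n N r F fun G => IsPer G z) ∧
    BaireSet n N r {f | ∀ z, HLim.{u, v} n N r f z → z ∈ closure (Per f)} :=
  ⟨main1 r hr, main2 r hr⟩

end Pool.Agent.Results.MP_1e8d1a_an.TransitiveSubsystems
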